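import Pool.Agent.helper80.EN.Spec

/-!
# Row EGL: elementary amenable groups are in `InL`

We define `E0` by the constructors finite, abelian, isomorphism, extension, union, and show that it
is closed under subgroups and quotients; so it contains all elementary amenable groups, and it is
contained in `InL` by the rows LFI, LAB.
-/

set_option autoImplicit false

universe u

namespace Pool.Agent.helper80.EN

open Subgroup

/-- The smallest class of groups that contains the finite and the abelian groups and is closed under
isomorphism, extensions and directed unions. -/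
inductive E0 : (G : Type u) → [Group G] → Prop
  | finite {G : Type u} [Group G] (h : Finite G) : E0 G
  | abelian {G : Type u} [Group G] (h : ∀ a b : G, a * b = b * a) : E0 G
  | iso {G H : Type u} [Group G] [Group H] (e : G ≃* H) (h : E0 H) : E0 G
  | ext {G : Type u} [Group G] (N : Subgroup G) [N.Normal] (h1 : E0 N) (h2 : E0 (G ⧸ N)) : E0 G
  | union {G : Type u} [Group G] (S : Finset G → Subgroup G) (hS : ∀ s : Finset G, (s : Set G) ⊆ S s)
      (h : ∀ s, E0 (S s)) : E0 G

theorem E0.sub {H : Type u} [Group H] (h : E0 H) : ∀ (G : Type u) [Group G] (f : G →* H),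
    Function.Injective f → E0 G := by
  classical
  induction h with
  | finite h =>
    intro G _ f hf
    exact E0.finite (Finite.of_injective f hf)
  | abelian h =>
    intro G _ f hf
    exact E0.abelian fun a b => hf (by rw [map_mul, map_mul, h])
  | iso e h ih =>
    intro G _ f hf
    exact ih G (e.toMonoidHom.comp f) (e.injective.comp hf)
  | ext N h1 h2 ih1 ih2 =>
    intro G _ f hf
    refine E0.ext (N.comap f) (ih1 _ (f.subgroupComap N) ?_)
      (ih2 _ (QuotientGroup.map (N.comap f) N f le_rfl) ?_)
    · intro x y hxy
      apply Subtype.ext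
      apply hf
      exact congrArg Subtype.val hxy
    · rw [injective_iff_map_eq_one]
      intro x hx
      obtain ⟨x, rfl⟩ := QuotientGroup.mk_surjective x
      rw [QuotientGroup.map_mk, QuotientGroup.eq_one_iff] at hx
      rw [QuotientGroup.eq_one_iff]
      exact hx
  | union S hS h ih =>
    intro G _ f hf
    refine E0.union (fun s => (S (s.image f)).comap f) ?_ ?_
    · intro s x hx
      exact hS (s.image f) (by simpa using ⟨x, hx, rfl⟩)
    · intro s
      refine ih (s.image f) _ (f.subgroupComap _) ?_
      intro x y hxy
      apply Subtype.ext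
      apply hf
      exact congrArg Subtype.val hxy

theorem E0.quot {G : Type u} [Group G] (h : E0 G) : ∀ (H : Type u) [Group H] (f : G →* H),
    Function.Surjective f → E0 H := by
  classical
  induction h with
  | finite h =>
    intro H _ f hf
    exact E0.finite (Finite.of_surjective f hf)
  | abelian h =>
    intro H _ f hf
    refine E0.abelian fun a b => ?_
    obtain ⟨a, rfl⟩ := hf a
    obtain ⟨b, rfl⟩ := hf b
    rw [← map_mul, ← map_mul, h]
  | iso e h ih =>
    intro H _ f hf
    exact ih H (f.comp e.symm.toMonoidHom) (hf.comp e.symm.surjective)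
  | ext N h1 h2 ih1 ih2 =>
    intro H _ f hf
    have : (N.map f).Normal := Subgroup.Normal.map inferInstance f hf
    refine E0.ext (N.map f) (ih1 _ (f.subgroupMap N) (f.subgroupMap_surjective N))
      (ih2 _ (QuotientGroup.map N (N.map f) f (Subgroup.le_comap_map f N)) ?_)
    intro y
    obtain ⟨y, rfl⟩ := QuotientGroup.mk_surjective y
    obtain ⟨x, rfl⟩ := hf y
    exact ⟨QuotientGroup.mk x, by rw [QuotientGroup.map_mk]⟩
  | union S hS h ih =>
    intro H _ f hf
    refine E0.union (fun t => (S (t.image (Function.surjInv hf))).map f) ?_ ?_
    · intro t y hy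
      refine ⟨Function.surjInv hf y, ?_, Function.surjInv_eq hf y⟩
      exact hS (t.image (Function.surjInv hf)) (by simpa using ⟨y, hy, rfl⟩)
    · intro t
      exact ih (t.image (Function.surjInv hf)) _ (f.subgroupMap _) (f.subgroupMap_surjective _)

theorem E0.of_EG {G : Type u} [Group G] (h : EG G) : E0 G := by
  induction h with
  | finite h => exact E0.finite h
  | abelian h => exact E0.abelian h
  | sub f hf h ih => exact ih.sub _ f hf
  | quot f hf h ih => exact ih.quot _ f hf
  | ext N h1 h2 ih1 ih2 => exact E0.ext N ih1 ih2
  | union S hS h ih => exact E0.union S hS ih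

theorem E0.inL (hLFI : LFI_stmt.{u}) (hLAB : LAB_stmt.{u}) {G : Type u} [Group G] (h : E0 G) :
    InL G := by
  induction h with
  | finite h => exact hLFI _ h
  | abelian h => exact hLAB _ h
  | iso e h ih => exact InL.sub e.toMonoidHom e.injective ih
  | ext N h1 h2 ih1 ih2 => exact InL.ext N ih1 ih2
  | union S hS h ih => exact InL.union S hS ih

theorem EGL (hLFI : LFI_stmt.{u}) (hLAB : LAB_stmt.{u}) : EGL_stmt.{u} := by
  intro G _ h
  exact (E0.of_EG h).inL hLFI hLAB

end Pool.Agent.helper80.EN
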