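import Pool.Agent.helper80.EN.Spec3
import Pool.Agent.helper24.EN.GRU

/-!
# Row eb:BSG: bounded left Engel elements and subnormal subgroups
-/

set_option autoImplicit false

universe u

namespace Pool.Agent.helper80.EN

open Subgroup

theorem BSG_icom {G : Type u} [Group G] (H : Subgroup G) (x a : H) (n : ℕ) :
    ((icom x a n : H) : G) = icom (x : G) (a : G) n := by
  induction n with
  | zero => rfl
  | succ n ih =>
    show ((com (icom x a n) a : H) : G) = com (icom (x : G) (a : G) n) (a : G)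
    rw [← ih]
    rfl

theorem BSG_nilp {G : Type u} [Group G] (a : G) : Group.IsNilpotent (zpowers a) := by
  let _ : CommGroup (zpowers a) :=
    { (inferInstance : Group (zpowers a)) with
      mul_comm := by
        intro x y
        obtain ⟨x, hx⟩ := x
        obtain ⟨y, hy⟩ := y
        obtain ⟨m, rfl⟩ := mem_zpowers_iff.mp hx
        obtain ⟨n, rfl⟩ := mem_zpowers_iff.mp hy
        apply Subtype.ext
        show a ^ m * a ^ n = a ^ n * a ^ m
        rw [← zpow_add, ← zpow_add, add_comm] }
  exact CommGroup.isNilpotent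

theorem BSG_fg {G : Type u} [Group G] (a : G) : (zpowers a).FG := by
  rw [zpowers_eq_closure]
  exact ⟨{a}, by simp⟩

theorem BSG (h1 : SBE_stmt.{u}) (h2 : GBS_stmt.{u}) (h3 : JFN_stmt.{u}) (h4 : HPR_stmt.{u})
    (h5 : TRF_stmt.{u}) : BSG_stmt.{u} := by
  intro G _ hHP hsol
  obtain ⟨hn, hl, -, -⟩ := h4 G
  have key : ∀ a : G, BLE a → (zpowers a).IsSubnormal := by
    intro a ha
    have hmem := hHP a ha
    obtain ⟨n, hn'⟩ := ha
    have hb : BLE (⟨a, hmem⟩ : HP G) := by
      refine ⟨n, fun x => ?_⟩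
      apply Subtype.ext
      rw [BSG_icom]
      exact hn' (x : G)
    have hs := h2 (HP G) ⟨a, hmem⟩ hsol hb
    have ht := hs.trans' hn.isSubnormal
    rwa [MonoidHom.map_zpowers] at ht
  have key2 : ∀ a : G, BLE a ↔ (zpowers a).IsSubnormal := fun a => ⟨key a, h1 G a⟩
  refine ⟨key2, ?_⟩
  refine ⟨{ carrier := {a | BLE a}, mul_mem' := ?_, one_mem' := ?_, inv_mem' := ?_ },
    fun a => Iff.rfl⟩
  · intro a b ha hb
    have ha' : BLE a := ha
    have hb' : BLE b := hb
    have hJ : (zpowers a ⊔ zpowers b).IsSubnormal :=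
      h3 G (zpowers a) (zpowers b) (key a ha') (key b hb') (BSG_fg a) (BSG_fg b) (BSG_nilp a)
        (BSG_nilp b)
    have hle : zpowers a ⊔ zpowers b ≤ HP G := by
      refine sup_le ?_ ?_
      · rw [zpowers_le]
        exact hHP a ha'
      · rw [zpowers_le]
        exact hHP b hb'
    obtain ⟨t1, -, -, -, -, t6, -⟩ := h5 G
    have hJn : Group.IsNilpotent (zpowers a ⊔ zpowers b : Subgroup G) :=
      t6 _ ((BSG_fg a).sup (BSG_fg b)) (t1 _ _ hle hl)
    have hab : a * b ∈ zpowers a ⊔ zpowers b :=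
      mul_mem (mem_sup_left (mem_zpowers a)) (mem_sup_right (mem_zpowers b))
    have hs := GRU_subnormal hJn (zpowers (⟨a * b, hab⟩ : (zpowers a ⊔ zpowers b : Subgroup G)))
    have ht := hs.trans' hJ
    rw [MonoidHom.map_zpowers] at ht
    exact h1 G _ ht
  · show BLE (1 : G)
    refine ⟨1, fun x => ?_⟩
    show com x (1 : G) = 1
    unfold com
    group
  · intro a ha
    have ha' : BLE a := ha
    show BLE a⁻¹
    apply h1 G
    rw [zpowers_inv]
    exact key a ha'

end Pool.Agent.helper80.EN
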